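import Pool.Graph.R_seed8.Y429.HalvFew

/-!
# An unbalanced crossing lemma and the `k`-edges with an end in a small set
-/

set_option autoImplicit false

namespace Pool.Agent.H56.Deg

open Finset Pool.Agent.TH124.KE

/-- `e` joins `S` and `T` -/
def Joins (S T : Finset (ℝ × ℝ)) (e : Seg) : Prop := (e.1 ∈ S ∧ e.2 ∈ T) ∨ (e.2 ∈ S ∧ e.1 ∈ T)

open scoped Classical in
/-- the end of `e` in `S` -/
noncomputable def sg (S T : Finset (ℝ × ℝ)) (e : Seg) : ℝ × ℝ := if e.1 ∈ S ∧ e.2 ∈ T then e.1 else e.2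

open scoped Classical in
/-- the other end of `e` -/
noncomputable def ta (S T : Finset (ℝ × ℝ)) (e : Seg) : ℝ × ℝ := if e.1 ∈ S ∧ e.2 ∈ T then e.2 else e.1

theorem sg_mem {S T : Finset (ℝ × ℝ)} {e : Seg} (h : Joins S T e) : sg S T e ∈ S := by
  unfold sg
  split_ifs with h1
  · exact h1.1
  · exact (h.resolve_left h1).1

theorem ta_mem {S T : Finset (ℝ × ℝ)} {e : Seg} (h : Joins S T e) : ta S T e ∈ T := by
  unfold ta
  split_ifs with h1
  · exact h1.2
  · exact (h.resolve_left h1).2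

theorem sgta (S T : Finset (ℝ × ℝ)) (e : Seg) :
    (sg S T e = e.1 ∧ ta S T e = e.2) ∨ (sg S T e = e.2 ∧ ta S T e = e.1) := by
  unfold sg ta
  split_ifs <;> simp

theorem cr_ends {e f : Seg} (h : Cr e f) (he : e.1.1 < e.2.1) (hf : f.1.1 < f.2.1) :
    e.1 ≠ f.1 ∧ e.1 ≠ f.2 ∧ e.2 ≠ f.1 ∧ e.2 ≠ f.2 := by
  have h4 := h.distinct he hf
  refine ⟨?_, ?_, ?_, ?_⟩ <;> intro hc <;> exfalso
  · have : ends4 (e, f) ⊆ {f.1, e.2, f.2} := by
      unfold ends4; intro x; simp only [mem_insert, mem_singleton, hc]; tauto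
    have := (card_le_card this).trans card_le_three
    omega
  · have : ends4 (e, f) ⊆ {f.2, e.2, f.1} := by
      unfold ends4; intro x; simp only [mem_insert, mem_singleton, hc]; tauto
    have := (card_le_card this).trans card_le_three
    omega
  · have : ends4 (e, f) ⊆ {e.1, f.1, f.2} := by
      unfold ends4; intro x; simp only [mem_insert, mem_singleton, hc]; tauto
    have := (card_le_card this).trans card_le_three
    omega
  · have : ends4 (e, f) ⊆ {e.1, f.1, f.2} := by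
      unfold ends4; intro x; simp only [mem_insert, mem_singleton, hc]; tauto
    have := (card_le_card this).trans card_le_three
    omega

theorem sum_cls_card {S : Finset (ℝ × ℝ)} {a : ℕ} (c : S → Fin a) : ∑ i, #(cls S c i) = #S := by
  classical
  rw [← card_biUnion]
  · congr 1
    ext x
    simp only [mem_biUnion, mem_univ, true_and]
    constructor
    · rintro ⟨i, hi⟩
      exact cls_subset S c i hi
    · intro hx
      exact ⟨c ⟨x, hx⟩, (mem_cls (V := S) (c := c) ⟨x, hx⟩).2 rfl⟩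
  · intro i _ j _ hij
    rw [Function.onFun, disjoint_left]
    intro x hx hx'
    have hxS := cls_subset S c i hx
    have h1 := (mem_cls (V := S) (c := c) ⟨x, hxS⟩).1 hx
    have h2 := (mem_cls (V := S) (c := c) ⟨x, hxS⟩).1 hx'
    exact hij (h1.symm.trans h2)

/-- objects with one designated point, counted by the colour of this point -/
theorem sum_cls_filter {β : Type*} {S : Finset (ℝ × ℝ)} {a : ℕ} (c : S → Fin a) (A : Finset β)
    (g : β → ℝ × ℝ) (hg : ∀ x ∈ A, g x ∈ S) : ∑ i, #{x ∈ A | g x ∈ cls S c i} = #A := by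
  classical
  simp_rw [card_filter]
  rw [sum_comm, card_eq_sum_ones]
  refine sum_congr rfl fun x hx => ?_
  have h : ∀ i, (g x ∈ cls S c i) ↔ c ⟨g x, hg x hx⟩ = i := fun i =>
    mem_cls (V := S) (c := c) ⟨g x, hg x hx⟩
  simp_rw [h]
  simp

/-- **Unbalanced crossing lemma**: all the edges join `S` and `T`. -/
theorem crossing_lemma' {P S T : Finset (ℝ × ℝ)} (hP : GP P) (hS : S ⊆ P) (hT : T ⊆ P) {F : Finset Seg}
    (hF : ∀ e ∈ F, e.1.1 < e.2.1) (hFS : ∀ e ∈ F, Joins S T e) (a b : ℕ)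
    (ha : 0 < a) (hb : 0 < b) :
    a * b * #F ≤ 3 * (a * b ^ 2 * #S) + 3 * (a ^ 2 * b * #T) + #(crs F) := by
  classical
  have hta : ∀ e ∈ F, ta S T e ∈ T := fun e he => ta_mem (hFS e he)
  -- crossing pairs
  have hX : ∀ x ∈ crs F, x.1 ∈ F ∧ x.2 ∈ F ∧ sg S T x.1 ≠ sg S T x.2 ∧ ta S T x.1 ≠ ta S T x.2 := by
    intro x hx
    unfold crs at hx
    rw [mem_filter, mem_product] at hx
    obtain ⟨h1, h2, h3, h4⟩ := cr_ends hx.2.2 (hF _ hx.1.1) (hF _ hx.1.2)
    refine ⟨hx.1.1, hx.1.2, ?_, ?_⟩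
    · rcases sgta S T x.1 with h | h <;> rcases sgta S T x.2 with h' | h' <;> rw [h.1, h'.1] <;> assumption
    · rcases sgta S T x.1 with h | h <;> rcases sgta S T x.2 with h' | h' <;> rw [h.2, h'.2] <;> assumption
  -- the weak crossing lemma for one pair of classes
  have key : ∀ (c₁ : S → Fin a) (c₂ : T → Fin b) (i : Fin a) (j : Fin b),
      #{e ∈ {e ∈ F | sg S T e ∈ cls S c₁ i} | ta S T e ∈ cls T c₂ j} ≤
        3 * (#(cls S c₁ i) + #(cls T c₂ j)) +
        #{x ∈ {x ∈ crs F | ({sg S T x.1, sg S T x.2} : Finset (ℝ × ℝ)) ⊆ cls S c₁ i} |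
          ({ta S T x.1, ta S T x.2} : Finset (ℝ × ℝ)) ⊆ cls T c₂ j} := by
    intro c₁ c₂ i j
    set W := cls S c₁ i ∪ cls T c₂ j with hW
    have hWP : W ⊆ P := union_subset ((cls_subset S c₁ i).trans hS) ((cls_subset T c₂ j).trans hT)
    have h := planar_crs (hP.mono hWP) _
      {e ∈ {e ∈ F | sg S T e ∈ cls S c₁ i} | ta S T e ∈ cls T c₂ j} rfl (by
        intro e he
        rw [mem_filter, mem_filter] at he
        have h1 : sg S T e ∈ W := mem_union_left _ he.1.2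
        have h2 : ta S T e ∈ W := mem_union_right _ he.2
        rcases sgta S T e with h | h
        · rw [h.1] at h1; rw [h.2] at h2
          exact ⟨h1, h2, hF e he.1.1⟩
        · rw [h.1] at h1; rw [h.2] at h2
          exact ⟨h2, h1, hF e he.1.1⟩)
    refine h.trans (add_le_add (Nat.mul_le_mul_left _ (card_union_le _ _)) (card_le_card ?_))
    intro x hx
    unfold crs at hx ⊢
    simp only [mem_filter, mem_product] at hx ⊢
    refine ⟨⟨⟨⟨hx.1.1.1.1, hx.1.2.1.1⟩, hx.2⟩, ?_⟩, ?_⟩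
    · intro y hy
      simp only [mem_insert, mem_singleton] at hy
      rcases hy with rfl | rfl
      · exact hx.1.1.1.2
      · exact hx.1.2.1.2
    · intro y hy
      simp only [mem_insert, mem_singleton] at hy
      rcases hy with rfl | rfl
      · exact hx.1.1.2
      · exact hx.1.2.2
  set N₁ := a * a ^ #S with hN₁
  set N₂ := b * b ^ #T with hN₂
  have hN₁0 : 0 < N₁ := by positivity
  have hN₂0 : 0 < N₂ := by positivity
  -- sum over the classes for fixed colourings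
  have key2 : ∀ (c₁ : S → Fin a) (c₂ : T → Fin b), #F ≤ 3 * (b * #S + a * #T) +
      ∑ i, ∑ j, #{x ∈ {x ∈ crs F | ({sg S T x.1, sg S T x.2} : Finset (ℝ × ℝ)) ⊆ cls S c₁ i} |
          ({ta S T x.1, ta S T x.2} : Finset (ℝ × ℝ)) ⊆ cls T c₂ j} := by
    intro c₁ c₂
    have e1 : ∑ i, ∑ j, #{e ∈ {e ∈ F | sg S T e ∈ cls S c₁ i} | ta S T e ∈ cls T c₂ j} = #F := by
      rw [← sum_cls_filter c₁ F (sg S T) fun e he => sg_mem (hFS e he)]
      exact sum_congr rfl fun i _ => sum_cls_filter c₂ _ (ta S T) fun e he =>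
        hta e (mem_filter.1 he).1
    have e2 : ∑ i, ∑ j, 3 * (#(cls S c₁ i) + #(cls T c₂ j)) = 3 * (b * #S + a * #T) := by
      simp_rw [← mul_sum, sum_add_distrib, sum_cls_card]
      rw [← sum_cls_card c₁]
      simp [mul_sum]
    rw [← e1, ← e2]
    rw [← sum_add_distrib]
    refine sum_le_sum fun i _ => ?_
    rw [← sum_add_distrib]
    exact sum_le_sum fun j _ => key c₁ c₂ i j
  -- average over the colourings
  have hS4 : (a * b) ^ 2 * ∑ c₁ : S → Fin a, ∑ c₂ : T → Fin b, ∑ i, ∑ j,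
      #{x ∈ {x ∈ crs F | ({sg S T x.1, sg S T x.2} : Finset (ℝ × ℝ)) ⊆ cls S c₁ i} |
          ({ta S T x.1, ta S T x.2} : Finset (ℝ × ℝ)) ⊆ cls T c₂ j} = #(crs F) * (N₁ * N₂) := by
    have e1 : ∀ c₁ : S → Fin a, b ^ 2 * ∑ c₂ : T → Fin b, ∑ i, ∑ j,
        #{x ∈ {x ∈ crs F | ({sg S T x.1, sg S T x.2} : Finset (ℝ × ℝ)) ⊆ cls S c₁ i} |
          ({ta S T x.1, ta S T x.2} : Finset (ℝ × ℝ)) ⊆ cls T c₂ j} =
        ∑ i, #{x ∈ crs F | ({sg S T x.1, sg S T x.2} : Finset (ℝ × ℝ)) ⊆ cls S c₁ i} * N₂ := by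
      intro c₁
      rw [sum_comm, mul_sum]
      refine sum_congr rfl fun i _ => ?_
      exact cnt_sum T _ (fun x : Seg × Seg => {ta S T x.1, ta S T x.2}) 2 b (by
        intro x hx
        obtain ⟨h1, h2, -, h4⟩ := hX x (mem_filter.1 hx).1
        refine ⟨?_, card_pair h4⟩
        intro y hy
        simp only [mem_insert, mem_singleton] at hy
        rcases hy with rfl | rfl
        · exact hta _ h1
        · exact hta _ h2)
    have e2 := cnt_sum S (crs F) (fun x : Seg × Seg => {sg S T x.1, sg S T x.2}) 2 a (by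
      intro x hx
      obtain ⟨h1, h2, h3, -⟩ := hX x hx
      refine ⟨?_, card_pair h3⟩
      intro y hy
      simp only [mem_insert, mem_singleton] at hy
      rcases hy with rfl | rfl
      · exact sg_mem (hFS _ h1)
      · exact sg_mem (hFS _ h2))
    calc _ = a ^ 2 * ∑ c₁ : S → Fin a, (b ^ 2 * ∑ c₂ : T → Fin b, ∑ i, ∑ j,
        #{x ∈ {x ∈ crs F | ({sg S T x.1, sg S T x.2} : Finset (ℝ × ℝ)) ⊆ cls S c₁ i} |
          ({ta S T x.1, ta S T x.2} : Finset (ℝ × ℝ)) ⊆ cls T c₂ j}) := by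
          rw [← mul_sum]; ring
      _ = (a ^ 2 * ∑ c₁ : S → Fin a, ∑ i,
          #{x ∈ crs F | ({sg S T x.1, sg S T x.2} : Finset (ℝ × ℝ)) ⊆ cls S c₁ i}) * N₂ := by
          rw [mul_assoc, sum_mul]
          congr 1
          exact sum_congr rfl fun c₁ _ => by rw [e1, sum_mul]
      _ = _ := by rw [e2]; ring
  have hsum : a * b * (N₁ * N₂ * #F) ≤ a * b * (N₁ * N₂ * (3 * (b * #S + a * #T))) +
      #(crs F) * (N₁ * N₂) := by
    have hc₁ : Fintype.card (S → Fin a) = a ^ #S := by simp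
    have hc₂ : Fintype.card (T → Fin b) = b ^ #T := by simp
    have h1 : a ^ #S * (b ^ #T * #F) ≤ a ^ #S * (b ^ #T * (3 * (b * #S + a * #T))) +
        ∑ c₁ : S → Fin a, ∑ c₂ : T → Fin b, ∑ i, ∑ j,
      #{x ∈ {x ∈ crs F | ({sg S T x.1, sg S T x.2} : Finset (ℝ × ℝ)) ⊆ cls S c₁ i} |
          ({ta S T x.1, ta S T x.2} : Finset (ℝ × ℝ)) ⊆ cls T c₂ j} := by
      have h2 := sum_le_sum (s := (univ : Finset (S → Fin a))) fun c₁ _ =>
        sum_le_sum (s := (univ : Finset (T → Fin b))) fun c₂ _ => key2 c₁ c₂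
      simp only [sum_add_distrib, sum_const, card_univ, hc₁, hc₂, smul_eq_mul] at h2
      exact h2
    have h3 := Nat.mul_le_mul_left ((a * b) ^ 2) h1
    rw [mul_add, hS4] at h3
    calc a * b * (N₁ * N₂ * #F) = (a * b) ^ 2 * (a ^ #S * (b ^ #T * #F)) := by
          rw [hN₁, hN₂]; ring
      _ ≤ _ := h3
      _ = _ := by rw [hN₁, hN₂]; ring
  have hfin : N₁ * N₂ * (a * b * #F) ≤
      N₁ * N₂ * (3 * (a * b ^ 2 * #S) + 3 * (a ^ 2 * b * #T) + #(crs F)) := by
    calc _ = a * b * (N₁ * N₂ * #F) := by ring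
      _ ≤ _ := hsum
      _ = _ := by ring
  exact Nat.le_of_mul_le_mul_left hfin (by positivity)

/-- the choice of the scales -/
theorem scale' {N s t n X : ℕ} (h : ∀ a b : ℕ, 0 < a → 0 < b →
      a * b * N ≤ 3 * (a * b ^ 2 * s) + 3 * (a ^ 2 * b * t) + X)
    (hs : 0 < s) (ht : 0 < t) (hX : 2 * X ≤ n ^ 2) (hsn : s ≤ n) (htn : t ≤ n) :
    (N : ℝ) ≤ 13 * ((s : ℝ) * t * n ^ 2) ^ (1 / 3 : ℝ) := by
  have hsR : (1 : ℝ) ≤ s := by exact_mod_cast hs
  have htR : (1 : ℝ) ≤ t := by exact_mod_cast ht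
  have hsn' : (s : ℝ) ≤ n := by exact_mod_cast hsn
  have htn' : (t : ℝ) ≤ n := by exact_mod_cast htn
  have hn1 : (1 : ℝ) ≤ n := hsR.trans hsn'
  set u : ℝ := ((s : ℝ) * t * n ^ 2) ^ (1 / 3 : ℝ) with hu
  have hu3 : u ^ 3 = s * t * n ^ 2 := by
    rw [hu, ← Real.rpow_natCast, ← Real.rpow_mul (by positivity)]
    norm_num
  have hu0 : 0 < u := Real.rpow_pos_of_pos (by positivity) _
  have hus : (s : ℝ) ≤ u := by
    by_contra hc
    push Not at hc
    have h1 : u ^ 3 < (s : ℝ) ^ 3 := pow_lt_pow_left₀ hc hu0.le (by norm_num)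
    have h2 : (s : ℝ) ^ 3 ≤ s * t * n ^ 2 := by
      have : (s : ℝ) ^ 2 ≤ t * n ^ 2 := by nlinarith
      nlinarith
    linarith
  have hut : (t : ℝ) ≤ u := by
    by_contra hc
    push Not at hc
    have h1 : u ^ 3 < (t : ℝ) ^ 3 := pow_lt_pow_left₀ hc hu0.le (by norm_num)
    have h2 : (t : ℝ) ^ 3 ≤ s * t * n ^ 2 := by
      have : (t : ℝ) ^ 2 ≤ s * n ^ 2 := by nlinarith
      nlinarith
    linarith
  have hs0 : (0 : ℝ) < s := by linarith
  have ht0 : (0 : ℝ) < t := by linarith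
  set a := ⌈u / t⌉₊ with ha
  set b := ⌈u / s⌉₊ with hb
  have hqa : 1 ≤ u / t := by rw [le_div_iff₀ ht0]; linarith
  have hqb : 1 ≤ u / s := by rw [le_div_iff₀ hs0]; linarith
  have ha1 : u / t ≤ a := Nat.le_ceil _
  have ha2 : (a : ℝ) ≤ 2 * (u / t) := by
    have := (Nat.ceil_lt_add_one (by linarith : (0 : ℝ) ≤ u / t)).le
    rw [← ha] at this
    linarith
  have hb1 : u / s ≤ b := Nat.le_ceil _
  have hb2 : (b : ℝ) ≤ 2 * (u / s) := by
    have := (Nat.ceil_lt_add_one (by linarith : (0 : ℝ) ≤ u / s)).le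
    rw [← hb] at this
    linarith
  have ha0 : (0 : ℝ) < a := by linarith
  have hb0 : (0 : ℝ) < b := by linarith
  have h1 := h a b (by exact_mod_cast ha0) (by exact_mod_cast hb0)
  have h2 : (a : ℝ) * b * N ≤ 3 * (a * b ^ 2 * s) + 3 * (a ^ 2 * b * t) + X := by exact_mod_cast h1
  have h3 : 2 * (X : ℝ) ≤ (n : ℝ) ^ 2 := by exact_mod_cast hX
  have h4 : (b : ℝ) * s ≤ 2 * u := by
    calc (b : ℝ) * s ≤ 2 * (u / s) * s := by gcongr
      _ = 2 * u := by field_simp
  have h5 : (a : ℝ) * t ≤ 2 * u := by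
    calc (a : ℝ) * t ≤ 2 * (u / t) * t := by gcongr
      _ = 2 * u := by field_simp
  have h6 : (X : ℝ) ≤ a * b * u := by
    have : (n : ℝ) ^ 2 ≤ a * b * u := by
      calc (n : ℝ) ^ 2 = (u / t) * (u / s) * u := by field_simp; linarith
        _ ≤ a * b * u := by gcongr
    nlinarith
  have h7 : (a : ℝ) * b * N ≤ a * b * (13 * u) := by
    have e1 : 3 * ((a : ℝ) * b ^ 2 * s) ≤ a * b * (6 * u) := by
      have : (a : ℝ) * b * (b * s) ≤ a * b * (2 * u) := by gcongr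
      nlinarith
    have e2 : 3 * ((a : ℝ) ^ 2 * b * t) ≤ a * b * (6 * u) := by
      have : (a : ℝ) * b * (a * t) ≤ a * b * (2 * u) := by gcongr
      nlinarith
    nlinarith
  exact le_of_mul_le_mul_left h7 (by positivity)

open scoped Classical in
/-- The `k`-edges between `S` and `T`. -/
theorem kes_joins {P : Finset (ℝ × ℝ)} {k : ℕ} (hP : GP P) (S T : Finset (ℝ × ℝ)) (hS : S ⊆ P) (hT : T ⊆ P) :
    (#{e ∈ kes P k | Joins S T e} : ℝ) ≤ 13 * ((#S : ℝ) * #T * #P ^ 2) ^ (1 / 3 : ℝ) := by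
  rcases S.eq_empty_or_nonempty with rfl | hne
  · simp [Joins]
  rcases T.eq_empty_or_nonempty with rfl | hne'
  · simp [Joins]
  set F : Finset Seg := {e ∈ kes P k | Joins S T e} with hF
  refine scale' (X := #(crs F)) (fun a b ha hb => crossing_lemma' hP hS hT ?_ ?_ a b ha hb)
    (card_pos.2 hne) (card_pos.2 hne') ?_ (card_le_card hS) (card_le_card hT)
  · intro e he
    rw [hF, mem_filter, mem_kes] at he
    exact he.1.2.2.1
  · intro e he
    exact (mem_filter.1 he).2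
  · have h1 : #(crs F) ≤ #(crs (kes P k)) := by
      apply card_le_card
      intro x hx
      unfold crs at hx ⊢
      rw [mem_filter, mem_product] at hx ⊢
      exact ⟨⟨(mem_filter.mp hx.1.1).1, (mem_filter.mp hx.1.2).1⟩, hx.2⟩
    have h3 := crs_le (k := k) hP
    have h4 := two_mul_pairs P k
    omega

end Pool.Agent.H56.Deg
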