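import Pool.Agent.H56.Deg.Cross

/-!
# Lines through a small set and points on many lines
-/

set_option autoImplicit false

namespace Pool.Agent.H56.Deg

open Finset Pool.Agent.TH124.KE Pool.Agent.W296.HL Pool.Agent.TH511.HLC Pool.Agent.Y429.HalvFew

open scoped Classical in
/-- `L` is a line through two points of `P`, and one of its open sides contains exactly `k` points of `P`. -/
def IsKLine (P : Finset (ℝ × ℝ)) (k : ℕ) (L : Set (ℝ × ℝ)) : Prop :=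
  ∃ a b c : ℝ, (a ≠ 0 ∨ b ≠ 0) ∧ L = Line a b c ∧
    (∃ p ∈ P, ∃ q ∈ P, p ≠ q ∧ p ∈ L ∧ q ∈ L) ∧
    (P.filter (fun p => a * p.1 + b * p.2 < c)).card = k

theorem cr_line {a b c : ℝ} (hab : a ≠ 0 ∨ b ≠ 0) {p q : ℝ × ℝ} (hpq : p ≠ q) (hp : p ∈ Line a b c)
    (hq : q ∈ Line a b c) : ∃ lam : ℝ, lam ≠ 0 ∧ ∀ s : ℝ × ℝ, cr p q s =
      lam * (a * s.1 + b * s.2 - c) := by
  simp only [Line, Set.mem_ofPred_eq] at hp hq
  have hdet : a * (q.1 - p.1) = -b * (q.2 - p.2) := by linarith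
  rcases hab with ha | hb
  · refine ⟨-(q.2 - p.2) / a, ?_, fun s => ?_⟩
    · intro h0
      rw [div_eq_zero_iff] at h0
      rcases h0 with h0 | h0
      · have h1 : q.2 - p.2 = 0 := by linarith
        rw [h1, mul_zero] at hdet
        rcases mul_eq_zero.1 hdet with h2 | h2
        · exact ha h2
        · exact hpq (Prod.ext (by linarith) (by linarith))
      · exact ha h0
    · rw [cr, div_mul_eq_mul_div, eq_div_iff ha, ← hp]
      linear_combination (s.2 - p.2) * hdet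
  · refine ⟨(q.1 - p.1) / b, ?_, fun s => ?_⟩
    · intro h0
      rw [div_eq_zero_iff] at h0
      rcases h0 with h0 | h0
      · have h3 : -b * (q.2 - p.2) = 0 := by rw [← hdet, h0, mul_zero]
        rcases mul_eq_zero.1 h3 with h2 | h2
        · exact hb (by linarith)
        · exact hpq (Prod.ext (by linarith) (by linarith))
      · exact hb h0
    · rw [cr, div_mul_eq_mul_div, eq_div_iff hb, ← hp]
      linear_combination -(s.1 - p.1) * hdet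

theorem kline_pts {P : Finset (ℝ × ℝ)} (hP : Gen P) {k : ℕ} {L : Set (ℝ × ℝ)} (hL : IsKLine P k L)
    {p q : ℝ × ℝ} (hp : p ∈ P) (hq : q ∈ P) (hpq : p ≠ q) (hpL : p ∈ L) (hqL : q ∈ L) :
    L = {x | cr p q x = 0} ∧ (#{x ∈ P | cr p q x < 0} = k ∨ #{x ∈ P | cr p q x < 0} = #P - 2 - k) := by
  classical
  obtain ⟨a, b, c, hab, rfl, -, h1⟩ := hL
  obtain ⟨lam, hlam, h⟩ := cr_line hab hpq hpL hqL
  refine ⟨?_, ?_⟩
  · ext x
    simp only [Line, Set.mem_ofPred_eq, h, mul_eq_zero, hlam, false_or, sub_eq_zero]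
  · have h1' : #{x ∈ P | a * x.1 + b * x.2 < c} = k := by
      rw [← h1]
    rcases lt_or_gt_of_ne hlam with hneg | hpos
    · right
      have e1 : #{x ∈ P | 0 < cr p q x} = k := by
        rw [← h1']
        congr 1
        ext x
        simp only [mem_filter, h, mul_pos_iff, hneg, not_lt.2 hneg.le, false_and, true_and, false_or, sub_neg]
      have e2 : P \ {p, q} = {x ∈ P | 0 < cr p q x} ∪ {x ∈ P | cr p q x < 0} := by
        ext x
        simp only [mem_sdiff, mem_insert, mem_singleton, not_or, mem_union, mem_filter]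
        constructor
        · rintro ⟨hx, hxp, hxq⟩
          have := hP p hp q hq x hx hpq (fun e => hxp e.symm) (fun e => hxq e.symm)
          rcases lt_or_gt_of_ne this with h' | h'
          · exact Or.inr ⟨hx, h'⟩
          · exact Or.inl ⟨hx, h'⟩
        · intro h'
          have h0 : cr p q x ≠ 0 := by
            rcases h' with h' | h'
            · exact h'.2.ne'
            · exact h'.2.ne
          refine ⟨by tauto, ?_, ?_⟩
          · rintro rfl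
            exact h0 (by unfold cr; ring)
          · rintro rfl
            exact h0 (by unfold cr; ring)
      have e3 := congrArg Finset.card e2
      have e5 : ({p, q} : Finset (ℝ × ℝ)) ⊆ P := by
        intro x hx
        simp only [mem_insert, mem_singleton] at hx
        rcases hx with rfl | rfl <;> assumption
      rw [card_sdiff_of_subset e5, card_pair hpq, card_union_of_disjoint, e1] at e3
      · omega
      · rw [disjoint_filter]
        intro x _ h1 h2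
        linarith
    · left
      rw [← h1']
      congr 1
      ext x
      simp only [mem_filter, h, mul_neg_iff, hpos, not_lt.2 hpos.le, false_and, true_and, or_false, sub_neg]

theorem kline_finite (P : Finset (ℝ × ℝ)) (k : ℕ) : {L | IsKLine P k L}.Finite := by
  refine ((P ×ˢ P).finite_toSet.image fun z : (ℝ × ℝ) × (ℝ × ℝ) => {x | cr z.1 z.2 x = 0}).subset ?_
  rintro L ⟨a, b, c, hab, rfl, ⟨p, hp, q, hq, hpq, hpL, hqL⟩, -⟩
  obtain ⟨lam, hlam, h⟩ := cr_line hab hpq hpL hqL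
  refine ⟨(p, q), by simp [hp, hq], ?_⟩
  ext x
  simp only [Line, Set.mem_ofPred_eq, h, mul_eq_zero, hlam, false_or, sub_eq_zero]

/-- The lines of a family that contain a point of `S` and a different point of `T`. -/
def Joining (𝓛 : Set (Set (ℝ × ℝ))) (S T : Finset (ℝ × ℝ)) : Set (Set (ℝ × ℝ)) :=
  {L | L ∈ 𝓛 ∧ ∃ p ∈ S, ∃ q ∈ T, p ≠ q ∧ p ∈ L ∧ q ∈ L}

/-- A family of lines such that the lines through two points of `P` have `k ∈ K` points below. -/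
theorem lines_le {P : Finset (ℝ × ℝ)} (hP : Gen P) {S T : Finset (ℝ × ℝ)} (hS : S ⊆ P) (hT : T ⊆ P)
    (K : Finset ℕ) (𝓛 : Set (Set (ℝ × ℝ))) (hfin : 𝓛.Finite)
    (h𝓛 : ∀ L ∈ 𝓛, ∀ p ∈ P, ∀ q ∈ P, p ≠ q → p ∈ L → q ∈ L →
      L = {x | cr p q x = 0} ∧ #{x ∈ P | cr p q x < 0} ∈ K) :
    ((Joining 𝓛 S T).ncard : ℝ) ≤ #K * (13 * ((#S : ℝ) * #T * #P ^ 2) ^ (1 / 3 : ℝ)) := by
  classical
  obtain ⟨ε, hε⟩ := exists_shear P
  have hG := gp_shear hP hε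
  have hfin' : (Joining 𝓛 S T).Finite := hfin.subset fun L hL => hL.1
  have hex : ∀ L : Set (ℝ × ℝ), ∃ z : (ℝ × ℝ) × (ℝ × ℝ), L ∈ Joining 𝓛 S T →
      z.1 ∈ P ∧ z.2 ∈ P ∧ (shr ε z.1).1 < (shr ε z.2).1 ∧ #{x ∈ P | cr z.1 z.2 x < 0} ∈ K ∧
        L = {x | cr z.1 z.2 x = 0} ∧ ((z.1 ∈ S ∧ z.2 ∈ T) ∨ (z.2 ∈ S ∧ z.1 ∈ T)) := by
    intro L
    by_cases hL : L ∈ Joining 𝓛 S T
    · obtain ⟨hL1, p, hp, q, hq, hpq, hpL, hqL⟩ := id hL
      have hne : (shr ε p).1 ≠ (shr ε q).1 := fun h => hpq (hε p (hS hp) q (hT hq) h)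
      obtain ⟨h4, h3⟩ := h𝓛 L hL1 p (hS hp) q (hT hq) hpq hpL hqL
      obtain ⟨h4', h3'⟩ := h𝓛 L hL1 q (hT hq) p (hS hp) hpq.symm hqL hpL
      rcases lt_or_gt_of_ne hne with h | h
      · exact ⟨(p, q), fun _ => ⟨hS hp, hT hq, h, h3, h4, Or.inl ⟨hp, hq⟩⟩⟩
      · exact ⟨(q, p), fun _ => ⟨hT hq, hS hp, h, h3', h4', Or.inr ⟨hp, hq⟩⟩⟩
    · exact ⟨((0, 0), (0, 0)), fun h => absurd h hL⟩
  choose z hz using hex
  have hSc : #(S.image (shr ε)) = #S := card_image_of_injective _ (shr_inj ε)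
  have hTc : #(T.image (shr ε)) = #T := card_image_of_injective _ (shr_inj ε)
  have hPc : #(P.image (shr ε)) = #P := card_image_of_injective _ (shr_inj ε)
  obtain ⟨E, hE⟩ : ∃ E : ℕ → Finset Seg, ∀ k, E k =
      (kes (P.image (shr ε)) k).filter fun e => Joins (S.image (shr ε)) (T.image (shr ε)) e :=
    ⟨_, fun _ => rfl⟩
  have h0 : ∀ k ∈ K, ((E k).card : ℝ) ≤ 13 * ((#S : ℝ) * #T * #P ^ 2) ^ (1 / 3 : ℝ) := by
    intro k _
    have := kes_joins (k := k) hG (S.image (shr ε)) (T.image (shr ε)) (image_subset_image hS)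
      (image_subset_image hT)
    rw [hPc, hSc, hTc] at this
    rw [hE]
    exact this
  have h1 : hfin'.toFinset.card ≤ ∑ k ∈ K, (E k).card := by
    refine le_trans ?_ (card_biUnion_le (s := K) (t := E))
    refine card_le_card_of_injOn (fun L => (shr ε (z L).1, shr ε (z L).2)) ?_ ?_
    · intro L hL
      rw [mem_coe, Set.Finite.mem_toFinset] at hL
      obtain ⟨h1, h2, h3, h4, h5, h6⟩ := hz L hL
      rw [mem_coe, mem_biUnion]
      refine ⟨_, h4, ?_⟩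
      rw [hE, mem_filter, mem_kes]
      refine ⟨⟨mem_image_of_mem _ h1, mem_image_of_mem _ h2, h3, ?_⟩, ?_⟩
      · unfold TH124.KE.bel
        rw [Finset.filter_image, Finset.card_image_of_injective _ (shr_inj ε)]
        congr 1
        ext x
        rw [mem_filter, mem_filter]
        rw [below_iff h3, cr_shr]
      · rcases h6 with h6 | h6
        · exact Or.inl ⟨mem_image_of_mem _ h6.1, mem_image_of_mem _ h6.2⟩
        · exact Or.inr ⟨mem_image_of_mem _ h6.1, mem_image_of_mem _ h6.2⟩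
    · intro L hL L' hL' h
      rw [mem_coe, Set.Finite.mem_toFinset] at hL hL'
      obtain ⟨h1, h2, h3, h4, h5, -⟩ := hz L hL
      obtain ⟨h1', h2', h3', h4', h5', -⟩ := hz L' hL'
      simp only [Prod.mk.injEq] at h
      rw [h5, h5', shr_inj ε h.1, shr_inj ε h.2]
  rw [Set.ncard_eq_toFinset_card _ hfin']
  calc (hfin'.toFinset.card : ℝ) ≤ ∑ k ∈ K, ((E k).card : ℝ) := by
        exact_mod_cast h1
    _ ≤ ∑ k ∈ K, 13 * ((#S : ℝ) * #T * #P ^ 2) ^ (1 / 3 : ℝ) := sum_le_sum h0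
    _ = _ := by rw [sum_const, nsmul_eq_mul]

/-- Points on many lines of a family of lines each of which contains exactly two points of `P`. -/
theorem rich_le {P : Finset (ℝ × ℝ)} (𝓛 : Set (Set (ℝ × ℝ))) (hfin : 𝓛.Finite) {C : ℝ} (hC : 0 ≤ C)
    (h1 : ∀ L ∈ 𝓛, ∃ p ∈ P, ∃ q ∈ P, p ≠ q ∧ p ∈ L ∧ q ∈ L)
    (h2 : ∀ L ∈ 𝓛, ∀ S ⊆ P, (∀ p ∈ S, p ∈ L) → #S ≤ 2)
    (hb : ∀ S ⊆ P, ((Joining 𝓛 S P).ncard : ℝ) ≤ C * ((#S : ℝ) * #P * #P ^ 2) ^ (1 / 3 : ℝ)) :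
    (∀ S ⊆ P, (∑ p ∈ S, ({L | L ∈ 𝓛 ∧ p ∈ L}.ncard : ℝ)) ≤ 2 * C * #P * (#S : ℝ) ^ (1 / 3 : ℝ)) ∧
    ∀ t : ℕ, 0 < t → ∀ S ⊆ P, (∀ p ∈ S, t ≤ {L | L ∈ 𝓛 ∧ p ∈ L}.ncard) →
      (#S : ℝ) ≤ (2 * C * #P / t) ^ (3 / 2 : ℝ) := by
  classical
  have hsum : ∀ S ⊆ P, (∑ p ∈ S, ({L | L ∈ 𝓛 ∧ p ∈ L}.ncard : ℝ)) ≤
      2 * C * #P * (#S : ℝ) ^ (1 / 3 : ℝ) := by
    intro S hS
    obtain ⟨T, hT⟩ : ∃ T : Finset (Set (ℝ × ℝ)), ∀ L, L ∈ T ↔ L ∈ 𝓛 :=
      ⟨hfin.toFinset, fun L => hfin.mem_toFinset⟩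
    have e1 : ∀ p, {L | L ∈ 𝓛 ∧ p ∈ L}.ncard = #{L ∈ T | p ∈ L} := by
      intro p
      rw [← Set.ncard_coe_finset]
      congr 1
      ext L
      simp [hT]
    have e2 : (Joining 𝓛 S P).ncard = #{L ∈ T | ∃ p ∈ S, p ∈ L} := by
      rw [← Set.ncard_coe_finset]
      congr 1
      ext L
      simp only [coe_filter, Set.mem_ofPred_eq, hT]
      constructor
      · rintro ⟨hL, p, hp, q, hq, hpq, hpL, hqL⟩
        exact ⟨hL, p, hp, hpL⟩
      · rintro ⟨hL, p, hp, hpL⟩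
        obtain ⟨a, ha, b, hb', hab, haL, hbL⟩ := h1 L hL
        by_cases hpa : p = a
        · exact ⟨hL, p, hp, b, hb', hpa ▸ hab, hpL, hbL⟩
        · exact ⟨hL, p, hp, a, ha, hpa, hpL, haL⟩
    have e3 : ∑ p ∈ S, #{L ∈ T | p ∈ L} ≤ 2 * #{L ∈ T | ∃ p ∈ S, p ∈ L} := by
      have h1 : ∑ p ∈ S, #{L ∈ T | p ∈ L} = ∑ L ∈ T, #{p ∈ S | p ∈ L} :=
        sum_card_bipartiteAbove_eq_sum_card_bipartiteBelow (fun p L => p ∈ L)
      rw [h1, card_filter, mul_sum]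
      refine sum_le_sum fun L hL => ?_
      by_cases hex : ∃ p ∈ S, p ∈ L
      · rw [if_pos hex, mul_one]
        exact h2 L ((hT L).1 hL) _ ((filter_subset _ _).trans hS) fun p hp =>
          (mem_filter.1 hp).2
      · rw [if_neg hex, mul_zero, Nat.le_zero, card_eq_zero, filter_eq_empty_iff]
        exact fun p hp hpL => hex ⟨p, hp, hpL⟩
    have h3 := hb S hS
    rw [e2] at h3
    have h4 : (∑ p ∈ S, ({L | L ∈ 𝓛 ∧ p ∈ L}.ncard : ℝ)) ≤ 2 * (#{L ∈ T | ∃ p ∈ S, p ∈ L} : ℝ) := by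
      simp_rw [e1]
      exact_mod_cast e3
    have h5 : ((#S : ℝ) * #P * #P ^ 2) ^ (1 / 3 : ℝ) = #P * (#S : ℝ) ^ (1 / 3 : ℝ) := by
      have e : (#S : ℝ) * #P * #P ^ 2 = #S * #P ^ 3 := by ring
      rw [e, Real.mul_rpow (by positivity) (by positivity), ← Real.rpow_natCast (#P : ℝ) 3,
        ← Real.rpow_mul (by positivity)]
      norm_num
      ring
    rw [h5] at h3
    linarith
  refine ⟨hsum, fun t ht S hS hr => ?_⟩
  rcases S.eq_empty_or_nonempty with rfl | hne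
  · simp only [card_empty, Nat.cast_zero]
    positivity
  have htR : (0 : ℝ) < t := by exact_mod_cast ht
  have hs : (1 : ℝ) ≤ #S := by exact_mod_cast card_pos.2 hne
  have h1 : (t : ℝ) * #S ≤ 2 * C * #P * (#S : ℝ) ^ (1 / 3 : ℝ) := by
    refine le_trans ?_ (hsum S hS)
    calc (t : ℝ) * #S = ∑ p ∈ S, (t : ℝ) := by rw [sum_const, nsmul_eq_mul, mul_comm]
      _ ≤ _ := sum_le_sum fun p hp => by exact_mod_cast hr p hp
  have h3 : (#S : ℝ) ^ (2 / 3 : ℝ) ≤ 2 * C * #P / t := by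
    rw [le_div_iff₀ htR]
    have e : (#S : ℝ) ^ (2 / 3 : ℝ) * (#S : ℝ) ^ (1 / 3 : ℝ) = #S := by
      rw [← Real.rpow_add (by linarith)]; norm_num
    have h5 : 0 < (#S : ℝ) ^ (1 / 3 : ℝ) := Real.rpow_pos_of_pos (by linarith) _
    refine le_of_mul_le_mul_right ?_ h5
    calc (#S : ℝ) ^ (2 / 3 : ℝ) * t * (#S : ℝ) ^ (1 / 3 : ℝ) =
        t * ((#S : ℝ) ^ (2 / 3 : ℝ) * (#S : ℝ) ^ (1 / 3 : ℝ)) := by ring
      _ = t * #S := by rw [e]
      _ ≤ _ := h1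
  calc (#S : ℝ) = ((#S : ℝ) ^ (2 / 3 : ℝ)) ^ (3 / 2 : ℝ) := by
        rw [← Real.rpow_mul (by linarith)]; norm_num
    _ ≤ _ := Real.rpow_le_rpow (by positivity) h3 (by norm_num)

/-- at most two points on a line -/
theorem two_pts {P : Finset (ℝ × ℝ)} (hP : GeneralPosition P) {a b c : ℝ} (hab : a ≠ 0 ∨ b ≠ 0)
    (S : Finset (ℝ × ℝ)) (hS : S ⊆ P) (hL : ∀ p ∈ S, p ∈ Line a b c) : #S ≤ 2 := by
  by_contra hc
  push Not at hc
  obtain ⟨p, hp, q, hq, s, hs, h1, h2, h3⟩ := two_lt_card.1 hc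
  exact hP a b c hab p (hS hp) q (hS hq) s (hS hs) h1 h2 h3 ⟨hL p hp, hL q hq, hL s hs⟩

/-! ### The final forms -/

theorem bis_pts {P : Finset (ℝ × ℝ)} {L : Set (ℝ × ℝ)} (hL : IsBisector P L)
    {p q : ℝ × ℝ} (hpq : p ≠ q) (hpL : p ∈ L) (hqL : q ∈ L) :
    L = {x | cr p q x = 0} ∧ #{x ∈ P | cr p q x < 0} = #P / 2 - 1 := by
  obtain ⟨h3, h4⟩ := hv_of_line hL hpq hpL hqL
  exact ⟨h4, h3.2.2⟩

theorem bisectors_joining {P : Finset (ℝ × ℝ)} (hP : GeneralPosition P) {S T : Finset (ℝ × ℝ)} (hS : S ⊆ P)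
    (hT : T ⊆ P) :
    ((Joining {L | IsBisector P L} S T).ncard : ℝ) ≤ 13 * ((#S : ℝ) * #T * #P ^ 2) ^ (1 / 3 : ℝ) := by
  have h := lines_le (gen_of_gp hP) hS hT {#P / 2 - 1} {L | IsBisector P L} (bis_finite P)
    (fun L hL p _ q _ hpq hpL hqL => by
      obtain ⟨h1, h2⟩ := bis_pts hL hpq hpL hqL
      exact ⟨h1, by rw [h2]; exact mem_singleton_self _⟩)
  rwa [card_singleton, Nat.cast_one, one_mul] at h

theorem klines_joining {P : Finset (ℝ × ℝ)} (hP : GeneralPosition P) (k : ℕ) {S T : Finset (ℝ × ℝ)}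
    (hS : S ⊆ P) (hT : T ⊆ P) :
    ((Joining {L | IsKLine P k L} S T).ncard : ℝ) ≤ 26 * ((#S : ℝ) * #T * #P ^ 2) ^ (1 / 3 : ℝ) := by
  have h := lines_le (gen_of_gp hP) hS hT {k, #P - 2 - k} {L | IsKLine P k L} (kline_finite P k)
    (fun L hL p hp q hq hpq hpL hqL => by
      obtain ⟨h1, h2⟩ := kline_pts (gen_of_gp hP) hL hp hq hpq hpL hqL
      refine ⟨h1, ?_⟩
      rw [mem_insert, mem_singleton]
      exact h2)
  have h2 : (#({k, #P - 2 - k} : Finset ℕ) : ℝ) ≤ 2 := by exact_mod_cast card_le_two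
  have h3 : (0 : ℝ) ≤ 13 * ((#S : ℝ) * #T * #P ^ 2) ^ (1 / 3 : ℝ) := by positivity
  calc _ ≤ _ := h
    _ ≤ 2 * (13 * ((#S : ℝ) * #T * #P ^ 2) ^ (1 / 3 : ℝ)) := mul_le_mul_of_nonneg_right h2 h3
    _ = _ := by ring

theorem bisectors_rich {P : Finset (ℝ × ℝ)} (hP : GeneralPosition P) :
    (∀ S ⊆ P, (∑ p ∈ S, ({L | IsBisector P L ∧ p ∈ L}.ncard : ℝ)) ≤ 26 * #P * (#S : ℝ) ^ (1 / 3 : ℝ)) ∧
    ∀ t : ℕ, 0 < t → ∀ S ⊆ P, (∀ p ∈ S, t ≤ {L | IsBisector P L ∧ p ∈ L}.ncard) →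
      (#S : ℝ) ≤ (26 * #P / t) ^ (3 / 2 : ℝ) := by
  have h := rich_le (P := P) {L | IsBisector P L} (bis_finite P) (C := 13) (by norm_num)
    (fun L ⟨a, b, c, _, hL, h, _⟩ => h)
    (fun L ⟨a, b, c, hab, hL, _⟩ S hS h => two_pts hP hab S hS fun p hp => by rw [← hL]; exact h p hp)
    (fun S hS => bisectors_joining hP hS subset_rfl)
  rw [show (2 : ℝ) * 13 = 26 by norm_num] at h
  exact h

theorem klines_rich {P : Finset (ℝ × ℝ)} (hP : GeneralPosition P) (k : ℕ) :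
    (∀ S ⊆ P, (∑ p ∈ S, ({L | IsKLine P k L ∧ p ∈ L}.ncard : ℝ)) ≤ 52 * #P * (#S : ℝ) ^ (1 / 3 : ℝ)) ∧
    ∀ t : ℕ, 0 < t → ∀ S ⊆ P, (∀ p ∈ S, t ≤ {L | IsKLine P k L ∧ p ∈ L}.ncard) →
      (#S : ℝ) ≤ (52 * #P / t) ^ (3 / 2 : ℝ) := by
  have h := rich_le (P := P) {L | IsKLine P k L} (kline_finite P k) (C := 26) (by norm_num)
    (fun L ⟨a, b, c, _, hL, h, _⟩ => h)
    (fun L ⟨a, b, c, hab, hL, _⟩ S hS h => two_pts hP hab S hS fun p hp => by rw [← hL]; exact h p hp)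
    (fun S hS => klines_joining hP k hS subset_rfl)
  rw [show (2 : ℝ) * 26 = 52 by norm_num] at h
  exact h

end Pool.Agent.H56.Deg
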